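import Pool.Agent.Y223.G.Stm

/-!
# Job 3801 (G-LRA): the local structure of `C` along the low part

`P` is a prime of the low part of `C` which contains `w = hm (-ρ) u⁻¹`. The ideal `JJ` of the elements of `C` whose
components of degrees `k ρ`, moved to degree zero, are in `P` does not meet the elements of degree zero outside `P`; a
prime `Q` of `C` over it contains all homogeneous elements of degrees not divisible by `ρ`, and `S_LOCJ` at `Q` gives the
generators.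
-/

set_option autoImplicit false

namespace Pool.Agent.Y737.G

open Pool.Agent.Y223.G IsLocalRing Pool.Agent.W418.LU2

section

variable {k K : Type} [CommRing k] [Field K] [Algebra k K] {C : Subalgebra k (LP K)} {ρ : ℕ}

/-- the elements of degree zero in `P` -/
def PZ (P : Ideal (low C ρ)) (g : K) : Prop :=
  ∃ h : hm 0 g ∈ low C ρ, (⟨hm 0 g, h⟩ : low C ρ) ∈ P

variable {P : Ideal (low C ρ)}

lemma PZ.zero : PZ P 0 := by
  refine ⟨by rw [hm_zero]; exact (low C ρ).zero_mem, ?_⟩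
  have h1 : (⟨hm 0 (0 : K), by rw [hm_zero]; exact (low C ρ).zero_mem⟩ : low C ρ) = 0 :=
    Subtype.ext (hm_zero 0)
  rw [h1]
  exact P.zero_mem

lemma PZ.add {a b : K} (ha : PZ P a) (hb : PZ P b) : PZ P (a + b) := by
  obtain ⟨h1, h2⟩ := ha
  obtain ⟨h3, h4⟩ := hb
  refine ⟨by rw [hm_add]; exact (low C ρ).add_mem h1 h3, ?_⟩
  have h5 := P.add_mem h2 h4
  convert h5 using 1
  exact Subtype.ext (hm_add 0 a b)

lemma PZ.sum {ι : Type*} (s : Finset ι) (f : ι → K) (h : ∀ i ∈ s, PZ P (f i)) : PZ P (∑ i ∈ s, f i) := by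
  classical
  induction s using Finset.induction_on with
  | empty => rw [Finset.sum_empty]; exact PZ.zero
  | insert a s ha ih =>
    rw [Finset.sum_insert ha]
    exact (h a (Finset.mem_insert_self _ _)).add (ih fun i hi => h i (Finset.mem_insert_of_mem hi))

lemma PZ.mul_left (hρ : 0 < ρ) {a b : K} (ha : hm 0 a ∈ C) (hb : PZ P b) : PZ P (a * b) := by
  obtain ⟨h3, h4⟩ := hb
  have h1 : hm 0 a ∈ low C ρ := mem_low ha (by exact_mod_cast hρ)
  have e : hm 0 (a * b) = hm 0 a * hm 0 b := by rw [hm_mul, add_zero]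
  refine ⟨by rw [e]; exact (low C ρ).mul_mem h1 h3, ?_⟩
  have h5 := P.mul_mem_left (⟨hm 0 a, h1⟩ : low C ρ) h4
  convert h5 using 1
  exact Subtype.ext e

lemma PZ.prime (hP : P.IsPrime) (hρ : 0 < ρ) {a b : K} (ha : hm 0 a ∈ C) (hb : hm 0 b ∈ C)
    (h : PZ P (a * b)) : PZ P a ∨ PZ P b := by
  obtain ⟨h1, h2⟩ := h
  have ha' : hm 0 a ∈ low C ρ := mem_low ha (by exact_mod_cast hρ)
  have hb' : hm 0 b ∈ low C ρ := mem_low hb (by exact_mod_cast hρ)
  have e : hm 0 (a * b) = hm 0 a * hm 0 b := by rw [hm_mul, add_zero]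
  have h3 : (⟨hm 0 a, ha'⟩ : low C ρ) * ⟨hm 0 b, hb'⟩ ∈ P := by
    convert h2 using 1
    exact Subtype.ext e.symm
  rcases hP.mem_or_mem h3 with h | h
  · exact Or.inl ⟨ha', h⟩
  · exact Or.inr ⟨hb', h⟩

lemma PZ.not_one (hP : P.IsPrime) : ¬ PZ P 1 := by
  rintro ⟨h, h2⟩
  apply hP.ne_top
  rw [Ideal.eq_top_iff_one]
  convert h2 using 1
  exact Subtype.ext hm_one.symm

/-- products of elements of opposite degrees not divisible by `ρ` -/
lemma PZ.opp {u : K} (hu : u ≠ 0) (hu1 : hm ρ u ∈ C) (hu' : hm (-ρ) u⁻¹ ∈ low C ρ)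
    (hw : (⟨hm (-ρ) u⁻¹, hu'⟩ : low C ρ) ∈ P) {i : ℤ} (hi0 : 0 < i) (hi : i < ρ) {s t : K}
    (hs : hm i s ∈ C) (ht : hm (-i) t ∈ C) : PZ P (s * t) := by
  have h1 : hm i s ∈ low C ρ := mem_low hs hi
  have h2 : hm (ρ - i) (t * u) ∈ low C ρ := by
    refine mem_low ?_ (by omega)
    have := C.mul_mem ht hu1
    rw [hm_mul] at this
    have e : (ρ : ℤ) - i = -i + ρ := by ring
    rwa [e]
  have e : hm 0 (s * t) = hm i s * hm (ρ - i) (t * u) * hm (-ρ) u⁻¹ := by
    rw [hm_mul, hm_mul]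
    congr 1
    · ring
    · field_simp
  refine ⟨by rw [e]; exact (low C ρ).mul_mem ((low C ρ).mul_mem h1 h2) hu', ?_⟩
  have h5 := P.mul_mem_left ((⟨hm i s, h1⟩ : low C ρ) * ⟨hm (ρ - i) (t * u), h2⟩) hw
  convert h5 using 1
  exact Subtype.ext e

lemma coeff_mul_sum (c f : LP K) (e : ℤ) :
    (c * f).coeff e = ∑ d ∈ c.coeff.support, c.coeff d * f.coeff (e - d) := by
  conv_lhs => rw [eq_sum_hm c, Finset.sum_mul]
  rw [AddMonoidAlgebra.coeff_sum, Finsupp.finsetSum_apply]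
  exact Finset.sum_congr rfl fun d _ => coeff_hm_mul _ _ _ _

lemma coeff_mul_hm (f : LP K) (d : ℤ) (a : K) (e : ℤ) :
    (f * hm d a).coeff e = f.coeff (e - d) * a := by
  rw [mul_comm, coeff_hm_mul, mul_comm]

/-- the ideal of the elements with components of degrees `k ρ` in `P` -/
def JJ (hgr : Gr C) (hρ : 0 < ρ) {u : K} (hu : u ≠ 0) (hu1 : hm ρ u ∈ C) (hu' : hm (-ρ) u⁻¹ ∈ low C ρ)
    (hw : (⟨hm (-ρ) u⁻¹, hu'⟩ : low C ρ) ∈ P) : Ideal C where
  carrier := {f | ∀ j : ℤ, PZ P ((f : LP K).coeff (j * ρ) * u ^ (-j))}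
  zero_mem' := fun j => by
    change PZ P ((0 : LP K).coeff (j * ρ) * u ^ (-j))
    rw [AddMonoidAlgebra.coeff_zero, Finsupp.zero_apply, zero_mul]
    exact PZ.zero
  add_mem' := by
    intro f g hf hg j
    change PZ P (((f : LP K) + (g : LP K)).coeff (j * ρ) * u ^ (-j))
    rw [AddMonoidAlgebra.coeff_add, Finsupp.add_apply, add_mul]
    exact (hf j).add (hg j)
  smul_mem' := by
    intro c f hf j
    change PZ P (((c : LP K) * (f : LP K)).coeff (j * ρ) * u ^ (-j))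
    rw [coeff_mul_sum, Finset.sum_mul]
    refine PZ.sum _ _ fun d _ => ?_
    have hρ' : (0 : ℤ) < ρ := by exact_mod_cast hρ
    have huC : ∀ l : ℤ, hm (l * ρ) (u ^ l) ∈ C := zpow_unit_mem hu1 (low_le C ρ hu')
    have hcd := hgr c c.2 d
    have hfd := hgr f f.2 (j * ρ - d)
    set q := d / ρ with hq
    have hdiv := Int.mul_ediv_add_emod d ρ
    rw [← hq] at hdiv
    have hmod0 := Int.emod_nonneg d hρ'.ne'
    have hmod1 := Int.emod_lt_of_pos d hρ'
    have e1 : (c : LP K).coeff d * (f : LP K).coeff (j * ρ - d) * u ^ (-j) =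
        ((c : LP K).coeff d * u ^ (-q)) * ((f : LP K).coeff (j * ρ - d) * u ^ (-(j - q))) := by
      have : u ^ (-j) = u ^ (-q) * u ^ (-(j - q)) := by
        rw [← zpow_add₀ hu]
        congr 1
        ring
      rw [this]
      ring
    have h1 : hm (d % ρ) ((c : LP K).coeff d * u ^ (-q)) ∈ C := by
      have := C.mul_mem hcd (huC (-q))
      rw [hm_mul] at this
      have e : d % ρ = d + -q * ρ := by linear_combination hdiv
      rwa [e]
    rw [e1]
    rcases hmod0.eq_or_lt with h0 | h0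
    · have e2 : j * (ρ : ℤ) - d = (j - q) * ρ := by linear_combination hdiv + h0
      rw [← h0] at h1
      rw [e2]
      exact PZ.mul_left hρ h1 (hf (j - q))
    · refine PZ.opp hu hu1 hu' hw h0 hmod1 h1 ?_
      have := C.mul_mem hfd (huC (-(j - q)))
      rw [hm_mul] at this
      have e : -(d % ρ) = j * ρ - d + -(j - q) * ρ := by linear_combination -hdiv
      rwa [e]

/-- the elements of degree zero outside `P` -/
def SS (hP : P.IsPrime) (hρ : 0 < ρ) : Submonoid C where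
  carrier := {f | ∃ g : K, (f : LP K) = hm 0 g ∧ ¬ PZ P g}
  one_mem' := ⟨1, rfl, PZ.not_one hP⟩
  mul_mem' := by
    rintro ⟨f, hf⟩ ⟨f', hf'⟩ ⟨g, rfl, hg⟩ ⟨g', rfl, hg'⟩
    refine ⟨g * g', ?_, fun h => ?_⟩
    · change hm 0 g * hm 0 g' = _
      rw [hm_mul, add_zero]
    · rcases PZ.prime hP hρ hf hf' h with h | h
      · exact hg h
      · exact hg' h

/-- the prime of `C` -/
theorem exists_Q (hgr : Gr C) (hρ : 0 < ρ) {u : K} (hu : u ≠ 0) (hu1 : hm ρ u ∈ C)
    (hu' : hm (-ρ) u⁻¹ ∈ low C ρ) (hP : P.IsPrime) (hw : (⟨hm (-ρ) u⁻¹, hu'⟩ : low C ρ) ∈ P) :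
    ∃ Q : Ideal C, Q.IsPrime ∧
      (∀ g : C, g ∉ Q → ∃ j : ℤ, ¬ PZ P ((g : LP K).coeff (j * ρ) * u ^ (-j))) ∧
      (∀ (g : K) (h : hm 0 g ∈ C), ¬ PZ P g → (⟨hm 0 g, h⟩ : C) ∉ Q) ∧
      (∀ (i : ℤ) (y : K) (h : hm i y ∈ C), ¬ (ρ : ℤ) ∣ i → (⟨hm i y, h⟩ : C) ∈ Q) := by
  have hdis : Disjoint ((JJ hgr hρ hu hu1 hu' hw : Ideal C) : Set C) (SS hP hρ : Set C) := by
    rw [Set.disjoint_left]
    rintro ⟨f, hf⟩ h1 ⟨g, rfl, hg⟩
    apply hg
    have h2 := h1 0
    change PZ P ((hm 0 g).coeff (0 * (ρ : ℤ)) * u ^ (-(0 : ℤ))) at h2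
    rwa [zero_mul, coeff_hm_same, neg_zero, zpow_zero, mul_one] at h2
  obtain ⟨Q, hQ, hle, hd⟩ := Ideal.exists_le_prime_disjoint _ _ hdis
  refine ⟨Q, hQ, ?_, ?_, ?_⟩
  · intro g hg
    by_contra hcon
    push Not at hcon
    exact hg (hle hcon)
  · intro g h hg hQg
    exact Set.disjoint_left.1 hd hQg ⟨g, rfl, hg⟩
  · intro i y h hi
    apply hle
    intro j
    change PZ P ((hm i y).coeff (j * ρ) * u ^ (-j))
    rw [coeff_hm, if_neg, zero_mul]
    · exact PZ.zero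
    · rintro rfl
      exact hi (Dvd.intro_left j rfl)

/-- clearing denominators -/
theorem clear_den {A ι : Type} [CommRing A] [Finite ι] (Q : Ideal A) [Q.IsPrime] (X : ι → A) (z : A)
    (h : algebraMap A (Localization.AtPrime Q) z ∈
      Ideal.span (Set.range fun j => algebraMap A (Localization.AtPrime Q) (X j))) :
    ∃ g : A, g ∉ Q ∧ g * z ∈ Ideal.span (Set.range X) := by
  have h1 : Ideal.span (Set.range fun j => algebraMap A (Localization.AtPrime Q) (X j)) =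
      (Ideal.span (Set.range X)).map (algebraMap A (Localization.AtPrime Q)) := by
    rw [Ideal.map_span, ← Set.range_comp]
    rfl
  rw [h1, IsLocalization.algebraMap_mem_map_algebraMap_iff Q.primeCompl] at h
  obtain ⟨m, hm, h⟩ := h
  exact ⟨m, hm, h⟩

/-- a component of a relation -/
theorem comp_rel {u : K} (hgr : Gr C) (hu1 : hm ρ u ∈ C) (hu2 : hm (-ρ) u⁻¹ ∈ C)
    {c : ℕ} {a : Fin c → ℕ} {x : Fin c → K} (hx : ∀ j, 0 < a j ∧ a j < ρ ∧ hm (a j) (x j) ∈ C)
    {i : ℤ} {y : K} (hy : hm i y ∈ C) {g : C}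
    (hrel : g * ⟨hm i y, hy⟩ ∈ Ideal.span (Set.range fun j => (⟨hm (a j) (x j), (hx j).2.2⟩ : C))) (j : ℤ) :
    ∃ s : Fin c → K, (∀ l, hm (i - a l) (s l) ∈ C) ∧
      ((g : LP K).coeff (j * ρ) * u ^ (-j)) * y = ∑ l, s l * x l := by
  rw [Ideal.mem_span_range_iff_exists_fun] at hrel
  obtain ⟨c', hc'⟩ := hrel
  have huC : ∀ l : ℤ, hm (l * ρ) (u ^ l) ∈ C := zpow_unit_mem hu1 hu2
  refine ⟨fun l => (c' l : LP K).coeff (j * ρ + i - a l) * u ^ (-j), fun l => ?_, ?_⟩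
  · have h1 := hgr _ (c' l).2 (j * ρ + i - a l)
    have := C.mul_mem h1 (huC (-j))
    rw [hm_mul] at this
    have e : i - (a l : ℤ) = j * ρ + i - a l + -j * ρ := by ring
    rwa [e]
  · have h2 := congrArg (fun f : C => (f : LP K).coeff (j * ρ + i)) hc'
    rw [AddSubmonoidClass.coe_finsetSum, AddMonoidAlgebra.coeff_sum, Finsupp.finsetSum_apply] at h2
    have h3 : ((g * ⟨hm i y, hy⟩ : C) : LP K).coeff (j * ρ + i) = (g : LP K).coeff (j * ρ) * y := by
      change ((g : LP K) * hm i y).coeff (j * ρ + i) = _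
      rw [coeff_mul_hm, add_sub_cancel_right]
    rw [h3] at h2
    have h4 : ∀ l, ((c' l * (⟨hm (a l) (x l), (hx l).2.2⟩ : C) : C) : LP K).coeff (j * ρ + i) =
        (c' l : LP K).coeff (j * ρ + i - a l) * x l := by
      intro l
      change ((c' l : LP K) * hm (a l) (x l)).coeff (j * ρ + i) = _
      rw [coeff_mul_hm]
    simp only [h4] at h2
    calc ((g : LP K).coeff (j * ρ) * u ^ (-j)) * y = (g : LP K).coeff (j * ρ) * y * u ^ (-j) := by ring
      _ = (∑ l, (c' l : LP K).coeff (j * ρ + i - a l) * x l) * u ^ (-j) := by rw [← h2]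
      _ = _ := by
        rw [Finset.sum_mul]
        exact Finset.sum_congr rfl fun l _ => by ring

end

theorem t_LRA : S_LOCJ → S_WQR → S_LRA := by
  intro hLJ hW k K _ _ _ _ C hft hrg hgr ρ hρ u hu hu1 hu' P hP hw
  have hu2 : hm (-ρ) u⁻¹ ∈ C := low_le C ρ hu'
  have hρ' : (0 : ℤ) < ρ := by exact_mod_cast hρ
  obtain ⟨Q, hQ, hQ1, hQ2, hQ3⟩ := exists_Q hgr hρ hu hu1 hu' hP hw
  obtain ⟨c, a, x, hx, hInd, hgen⟩ := hLJ k K C hft hrg hgr ρ hρ u hu hu1 hu2 Q hQ3
  refine ⟨c, a, x, ⟨hx, ?_, ?_⟩⟩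
  · intro i y hi0 hi hy
    have hnd : ¬ (ρ : ℤ) ∣ (i : ℤ) := by
      rw [Int.natCast_dvd_natCast]
      exact Nat.not_dvd_of_pos_of_lt hi0 hi
    obtain ⟨g, hg, hrel⟩ := clear_den Q _ _ (hgen i y hy hnd)
    obtain ⟨j, hj⟩ := hQ1 g hg
    obtain ⟨s, hs1, hs2⟩ := comp_rel hgr hu1 hu2 hx hy hrel j
    have hg0 : hm 0 ((g : LP K).coeff (j * ρ) * u ^ (-j)) ∈ low C ρ := by
      refine mem_low ?_ hρ'
      have := C.mul_mem (hgr g g.2 (j * ρ)) (zpow_unit_mem hu1 hu2 (-j))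
      rw [hm_mul] at this
      have e : (0 : ℤ) = j * ρ + -j * ρ := by ring
      rwa [e]
    exact ⟨_, hg0, fun h => hj ⟨hg0, h⟩, s, hs1, hs2⟩
  · intro d s f hsd ⟨g, hg, hgP, s', t, hs't, hrel⟩ m hm'
    set X : Fin c → C := fun j => ⟨hm (a j) (x j), (hx j).2.2⟩ with hX
    set A := Localization.AtPrime Q with hA
    have hAr : IsRegularLocalRing A := hrg.isRegularLocalRing_localization Q
    have hgC : hm 0 g ∈ C := low_le C ρ hg
    have hfC : ∀ m, hm 0 ((f m : d0 C) : K) ∈ C := fun m => (f m).2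
    -- monomials
    have hmon : ∀ m : Fin c →₀ ℕ, ((∏ i, X i ^ m i : C) : LP K) =
        hm ((∑ i, a i * m i : ℕ) : ℤ) (∏ i, x i ^ m i) := by
      intro m
      rw [SubmonoidClass.coe_finsetProd]
      have h1 : ∀ i, ((X i ^ m i : C) : LP K) = hm (m i * a i) (x i ^ m i) := by
        intro i
        rw [SubmonoidClass.coe_pow, ← hm_pow]
      simp only [h1]
      rw [hm_prod]
      congr 1
      push_cast
      exact Finset.sum_congr rfl fun i _ => by ring
    have hCrel : (∑ m ∈ s, ((⟨hm 0 g, hgC⟩ : C) * ⟨hm 0 ((f m : d0 C) : K), hfC m⟩) * ∏ i, X i ^ m i : C) =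
        ∑ m ∈ s'.attach, (⟨hm ((d : ℤ) - ((∑ i, a i * (m : Fin c →₀ ℕ) i : ℕ) : ℤ)) (t m), (hs't m m.2).2⟩ : C) *
          ∏ i, X i ^ (m : Fin c →₀ ℕ) i := by
      apply Subtype.ext
      rw [AddSubmonoidClass.coe_finsetSum, AddSubmonoidClass.coe_finsetSum]
      have h1 : ∀ m ∈ s, ((((⟨hm 0 g, hgC⟩ : C) * ⟨hm 0 ((f m : d0 C) : K), hfC m⟩) * ∏ i, X i ^ m i : C) : LP K) =
          hm d (g * ((f m : d0 C) : K) * ∏ i, x i ^ m i) := by
        intro m hm1
        rw [MulMemClass.coe_mul, MulMemClass.coe_mul, hmon, hm_mul, hm_mul, hsd m hm1]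
        congr 1
        ring
      have h2 : ∀ m ∈ s'.attach,
          ((((⟨hm ((d : ℤ) - ((∑ i, a i * (m : Fin c →₀ ℕ) i : ℕ) : ℤ)) (t m), (hs't m m.2).2⟩ : C) *
          ∏ i, X i ^ (m : Fin c →₀ ℕ) i : C)) : LP K) = hm d (t m * ∏ i, x i ^ (m : Fin c →₀ ℕ) i) := by
        intro m _
        rw [MulMemClass.coe_mul, hmon, hm_mul]
        congr 1
        ring
      rw [Finset.sum_congr rfl h1, Finset.sum_congr rfl h2]
      have hsum : ∀ (σ : Type) (T : Finset σ) (F : σ → K), ∑ m ∈ T, hm (d : ℤ) (F m) = hm (d : ℤ) (∑ m ∈ T, F m) := by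
        intro σ T F
        classical
        induction T using Finset.induction_on with
        | empty => rw [Finset.sum_empty, Finset.sum_empty, hm_zero]
        | insert b T hb ih => rw [Finset.sum_insert hb, Finset.sum_insert hb, hm_add, ih]
      rw [hsum, hsum]
      congr 1
      rw [Finset.sum_attach s' (fun m => t m * ∏ i, x i ^ m i), ← hrel, Finset.mul_sum]
      exact Finset.sum_congr rfl fun m _ => by ring
    -- in the localization
    have hloc := congrArg (algebraMap C A) hCrel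
    rw [map_sum, map_sum] at hloc
    have hpr : ∀ m : Fin c →₀ ℕ, algebraMap C A (∏ i, X i ^ m i) = ∏ i, algebraMap C A (X i) ^ m i := by
      intro m
      rw [map_prod]
      exact Finset.prod_congr rfl fun i _ => map_pow _ _ _
    have hmem := hW A c (fun j => algebraMap C A (X j)) hInd a (fun i => (hx i).1) d s
      (fun m => algebraMap C A ((⟨hm 0 g, hgC⟩ : C) * ⟨hm 0 ((f m : d0 C) : K), hfC m⟩)) hsd (by
        have h1 : ∑ m ∈ s, algebraMap C A ((⟨hm 0 g, hgC⟩ : C) * ⟨hm 0 ((f m : d0 C) : K), hfC m⟩) *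
            ∏ i, algebraMap C A (X i) ^ m i =
            ∑ m ∈ s, algebraMap C A (((⟨hm 0 g, hgC⟩ : C) * ⟨hm 0 ((f m : d0 C) : K), hfC m⟩) *
              ∏ i, X i ^ m i) := by
          refine Finset.sum_congr rfl fun m _ => ?_
          rw [map_mul _ (_ * _) (∏ i, X i ^ m i), hpr]
        rw [h1, hloc]
        refine Ideal.sum_mem _ fun m _ => ?_
        rw [map_mul, hpr]
        exact Ideal.mul_mem_left _ _ (Ideal.subset_span ⟨m, (hs't m m.2).1, rfl⟩)) m hm'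
    obtain ⟨g'', hg'', hrel''⟩ := clear_den Q _ _ hmem
    obtain ⟨j, hj⟩ := hQ1 g'' hg''
    have hgf : hm 0 (g * ((f m : d0 C) : K)) ∈ C := by
      have := C.mul_mem hgC (hfC m)
      rwa [hm_mul, add_zero] at this
    have hrel3 : g'' * (⟨hm 0 (g * ((f m : d0 C) : K)), hgf⟩ : C) ∈
        Ideal.span (Set.range fun j => (⟨hm (a j) (x j), (hx j).2.2⟩ : C)) := by
      convert hrel'' using 2
      apply Subtype.ext
      change _ = hm 0 g * hm 0 ((f m : d0 C) : K)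
      rw [hm_mul, add_zero]
    obtain ⟨r, hr1, hr2⟩ := comp_rel hgr hu1 hu2 hx hgf hrel3 j
    set γ : K := (g'' : LP K).coeff (j * ρ) * u ^ (-j) with hγ
    have hγC : hm 0 γ ∈ C := by
      have := C.mul_mem (hgr g'' g''.2 (j * ρ)) (zpow_unit_mem hu1 hu2 (-j))
      rw [hm_mul] at this
      have e : (0 : ℤ) = j * ρ + -j * ρ := by ring
      rwa [e]
    have hγgC : hm 0 (γ * g) ∈ C := by
      have := C.mul_mem hγC hgC
      rwa [hm_mul, add_zero] at this
    have hγgL : hm 0 (γ * g) ∈ low C ρ := mem_low hγgC hρ'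
    refine ⟨⟨γ * g, hγgC⟩, hγgL, fun h => ?_, ?_⟩
    · rcases PZ.prime hP hρ hγC hgC ⟨hγgL, h⟩ with h | ⟨h1, h2⟩
      · exact hj h
      · exact hgP h2
    · have hrC : ∀ l, hm (-(a l : ℤ)) (r l) ∈ C := by
        intro l
        have := hr1 l
        rwa [zero_sub] at this
      have hrx : ∀ l, r l * x l ∈ d0 C := by
        intro l
        rw [mem_d0]
        have := C.mul_mem (hrC l) (hx l).2.2
        rwa [hm_mul, neg_add_cancel] at this
      have e : (⟨γ * g, hγgC⟩ : d0 C) * f m = ∑ l, (⟨r l * x l, hrx l⟩ : d0 C) := by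
        apply Subtype.ext
        rw [AddSubmonoidClass.coe_finsetSum]
        change γ * g * ((f m : d0 C) : K) = ∑ l, r l * x l
        rw [mul_assoc]
        exact hr2
      rw [e]
      refine Ideal.sum_mem _ fun l _ => Ideal.subset_span ?_
      exact ⟨a l, (hx l).1, (hx l).2.1, x l, r l, (hx l).2.2, hrC l, mul_comm _ _⟩

end Pool.Agent.Y737.G
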